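import Pool.Agent.H38R2.CG.N0d

/-!
# Project CG2, piece N0e: existence of the real quadratic field of discriminant `D`
-/

set_option autoImplicit false

namespace Pool.Agent.Run7.h576.CG

open Polynomial Pool.Agent.H38R2.CG

theorem exists_quad (d : ℕ) (hd : 1 < d) (hs : Squarefree d) :
    ∃ (K : Type) (_ : Field K) (_ : NumberField K),
      Module.finrank ℚ K = 2 ∧ ∃ x : K, x ^ 2 = (d : K) := by
  have hirr : Irreducible (X ^ 2 - C (d : ℚ) : ℚ[X]) := by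
    refine X_pow_sub_C_irreducible_of_prime Nat.prime_two fun b hb => ?_
    have h1 : IsSquare (d : ℚ) := ⟨b, by rw [← hb, sq]⟩
    rw [Rat.isSquare_natCast_iff] at h1
    obtain ⟨k, hk⟩ := h1
    have h2 : IsUnit k := hs k ⟨1, by rw [mul_one]; exact hk⟩
    rw [Nat.isUnit_iff] at h2
    rw [hk, h2] at hd
    omega
  have hfact : Fact (Irreducible (X ^ 2 - C (d : ℚ) : ℚ[X])) := ⟨hirr⟩
  have hne : (X ^ 2 - C (d : ℚ) : ℚ[X]) ≠ 0 := hirr.ne_zero
  have hfin : FiniteDimensional ℚ (AdjoinRoot (X ^ 2 - C (d : ℚ) : ℚ[X])) :=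
    (AdjoinRoot.powerBasis hne).finite
  have hchar : CharZero (AdjoinRoot (X ^ 2 - C (d : ℚ) : ℚ[X])) :=
    algebraRat.charZero _
  refine ⟨AdjoinRoot (X ^ 2 - C (d : ℚ) : ℚ[X]), inferInstance,
    { to_charZero := hchar, to_finiteDimensional := ?_ }, ?_, AdjoinRoot.root _, ?_⟩
  · convert hfin
  · have h1 := (AdjoinRoot.powerBasis hne).finrank
    rw [AdjoinRoot.powerBasis_dim, natDegree_X_pow_sub_C] at h1
    convert h1
  · have h1 := AdjoinRoot.eval₂_root (X ^ 2 - C (d : ℚ) : ℚ[X])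
    rw [eval₂_sub, eval₂_pow, eval₂_X, eval₂_C, sub_eq_zero] at h1
    exact h1.trans (map_natCast (AdjoinRoot.of (X ^ 2 - C (d : ℚ) : ℚ[X])) d)

theorem T_N0e : P_N0e := by
  intro D hD
  obtain ⟨hD1, h | ⟨m, hm, hm4, hsq⟩⟩ := hD
  · obtain ⟨K, i1, i2, hf, hx⟩ := exists_quad D hD1 h.2
    refine ⟨K, i1, i2, hf, ?_⟩
    rw [T_N0d K D hD1 h.2 hf hx, if_pos h.1]
  · have hm1 : 1 < m := by omega
    obtain ⟨K, i1, i2, hf, hx⟩ := exists_quad m hm1 hsq
    refine ⟨K, i1, i2, hf, ?_⟩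
    rw [T_N0d K m hm1 hsq hf hx, if_neg (by omega), hm]
    push_cast
    ring

end Pool.Agent.Run7.h576.CG
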